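import Mathlib

/-!
# Generalized automata with two states: first order perturbation
-/

set_option autoImplicit false

namespace Pool.Agent.H87.GP

open Matrix

/-- generalized probabilistic automata with two states, letters `false` (for `0`) and `true` (for `1`) -/
structure GPFA2 where
  p : Fin 2 → ℝ
  P : Bool → Matrix (Fin 2) (Fin 2) ℝ
  e : Fin 2 → ℝ

/-- the value of a word: row vector times the product of the matrices times column vector -/
noncomputable def GPFA2.rho (M : GPFA2) (w : List Bool) : ℝ := M.p ⬝ᵥ ((w.map M.P).prod *ᵥ M.e)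

/-- the gap of the word is positive: every other word of the same length has a smaller value -/
def GPFA2.Wit (M : GPFA2) (x : List Bool) : Prop :=
  ∀ z : List Bool, z.length = x.length → z ≠ x → M.rho z < M.rho x

/-- the perturbed automaton -/
noncomputable def fam (u v : Fin 2 → ℝ) (P Q : Matrix (Fin 2) (Fin 2) ℝ) (ε : ℝ) : GPFA2 :=
  ⟨u, fun b => if b then P + ε • Q else P, v⟩

/-- the coefficient of first order -/
noncomputable def S (P Q : Matrix (Fin 2) (Fin 2) ℝ) : List Bool → Matrix (Fin 2) (Fin 2) ℝ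
  | [] => 0
  | b :: w => P * S P Q w + if b then Q * P ^ w.length else 0

theorem expand (P Q : Matrix (Fin 2) (Fin 2) ℝ) (w : List Bool) :
    ∃ T : ℝ → Matrix (Fin 2) (Fin 2) ℝ, Continuous T ∧ ∀ ε : ℝ,
      (w.map (fun b : Bool => if b then P + ε • Q else P)).prod = P ^ w.length + ε • S P Q w + (ε * ε) • T ε := by
  induction w with
  | nil => exact ⟨fun _ => 0, continuous_const, fun ε => by simp [S]⟩
  | cons b w ih =>
    obtain ⟨T, hT, h⟩ := ih
    cases b with
    | false =>
      refine ⟨fun ε => P * T ε, continuous_const.matrix_mul hT, fun ε => ?_⟩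
      rw [List.map_cons, List.prod_cons, h]
      simp only [Bool.false_eq_true, if_false, S, List.length_cons, pow_succ', mul_add, Matrix.mul_smul, add_zero]
    | true =>
      refine ⟨fun ε => P * T ε + Q * S P Q w + ε • (Q * T ε),
        ((continuous_const.matrix_mul hT).add continuous_const).add (continuous_id.smul (continuous_const.matrix_mul hT)),
        fun ε => ?_⟩
      rw [List.map_cons, List.prod_cons, h]
      simp only [if_true, S, List.length_cons, pow_succ', mul_add, add_mul, Matrix.mul_smul, Matrix.smul_mul,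
        smul_add, smul_smul]
      abel

/-- weighted sum of the letters -/
def D : (ℕ → ℝ) → List Bool → ℝ
  | _, [] => 0
  | c, b :: w => (if b then c 0 else 0) + D (fun k => c (k + 1)) w

theorem D_congr {c c' : ℕ → ℝ} {w : List Bool} (h : ∀ k < w.length, c k = c' k) : D c w = D c' w := by
  induction w generalizing c c' with
  | nil => rfl
  | cons b w ih =>
    rw [D, D, h 0 (by simp), ih (fun k hk => h (k + 1) (by simpa using hk))]

theorem dot_S (P Q : Matrix (Fin 2) (Fin 2) ℝ) (v : Fin 2 → ℝ) (w : List Bool) (u : Fin 2 → ℝ) :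
    u ⬝ᵥ (S P Q w *ᵥ v) = D (fun k => u ⬝ᵥ ((P ^ k * Q * P ^ (w.length - 1 - k)) *ᵥ v)) w := by
  induction w generalizing u with
  | nil => simp [S, D]
  | cons b w ih =>
    rw [S, D, Matrix.add_mulVec, dotProduct_add, ← Matrix.mulVec_mulVec, Matrix.dotProduct_mulVec u P, ih, add_comm]
    congr 1
    · cases b <;> simp
    · apply D_congr
      intro k hk
      rw [← Matrix.dotProduct_mulVec, Matrix.mulVec_mulVec, pow_succ', Matrix.mul_assoc, Matrix.mul_assoc,
        Matrix.mul_assoc]
      have : (b :: w).length - 1 - (k + 1) = w.length - 1 - k := by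
        simp only [List.length_cons]
        omega
      rw [this]

/-- the sign pattern of `c` maximises the weighted sum -/
theorem D_lt {c : ℕ → ℝ} {x z : List Bool} (hl : z.length = x.length) (hne : z ≠ x)
    (h : ∀ k (hk : k < x.length), if x[k] then 0 < c k else c k < 0) : D c z < D c x := by
  have main : ∀ (x z : List Bool) (c : ℕ → ℝ), z.length = x.length →
      (∀ k (hk : k < x.length), if x[k] then 0 < c k else c k < 0) → D c z ≤ D c x ∧ (z ≠ x → D c z < D c x) := by
    intro x
    induction x with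
    | nil =>
      intro z c hl _
      have : z = [] := List.length_eq_zero_iff.1 hl
      rw [this]
      exact ⟨le_rfl, fun h => absurd rfl h⟩
    | cons a x ih =>
      intro z c hl h
      cases z with
      | nil => simp at hl
      | cons b z =>
        have hl' : z.length = x.length := by simpa using hl
        obtain ⟨h1, h2⟩ := ih z (fun k => c (k + 1)) hl' (fun k hk => by
          have := h (k + 1) (by simpa using hk)
          simpa using this)
        have h0 := h 0 (by simp)
        rw [D, D]
        cases a <;> cases b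
        · simp only [Bool.false_eq_true, if_false, zero_add]
          exact ⟨h1, fun hne => h2 (fun e => hne (by rw [e]))⟩
        · simp at h0
          simp only [Bool.false_eq_true, if_false, if_true, zero_add]
          exact ⟨by linarith, fun _ => by linarith⟩
        · simp at h0
          simp only [Bool.false_eq_true, if_false, if_true, zero_add]
          exact ⟨by linarith, fun _ => by linarith⟩
        · simp only [if_true]
          exact ⟨by linarith, fun hne => by linarith [h2 (fun e => hne (by rw [e]))]⟩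
  exact (main x z c hl h).2 hne

/-- the criterion -/
theorem criterion (u v : Fin 2 → ℝ) (P Q : Matrix (Fin 2) (Fin 2) ℝ) (x : List Bool)
    (h : ∀ k (hk : k < x.length), if x[k] then 0 < u ⬝ᵥ ((P ^ k * Q * P ^ (x.length - 1 - k)) *ᵥ v)
      else u ⬝ᵥ ((P ^ k * Q * P ^ (x.length - 1 - k)) *ᵥ v) < 0) : ∃ M : GPFA2, M.Wit x := by
  classical
  have hfin : {z : List Bool | z.length = x.length ∧ z ≠ x}.Finite :=
    (List.finite_length_eq Bool x.length).subset fun z hz => hz.1
  have hev : ∀ z ∈ {z : List Bool | z.length = x.length ∧ z ≠ x},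
      ∀ᶠ ε in nhdsWithin (0 : ℝ) (Set.Ioi 0), (fam u v P Q ε).rho z < (fam u v P Q ε).rho x := by
    rintro z ⟨hl, hne⟩
    obtain ⟨T, hT, h1⟩ := expand P Q z
    obtain ⟨T', hT', h1'⟩ := expand P Q x
    have hD : D (fun k => u ⬝ᵥ ((P ^ k * Q * P ^ (x.length - 1 - k)) *ᵥ v)) z <
        D (fun k => u ⬝ᵥ ((P ^ k * Q * P ^ (x.length - 1 - k)) *ᵥ v)) x := D_lt hl hne h
    have hz : u ⬝ᵥ (S P Q z *ᵥ v) < u ⬝ᵥ (S P Q x *ᵥ v) := by
      rw [dot_S, dot_S, hl]
      exact hD
    have hcont : Continuous fun ε : ℝ => (u ⬝ᵥ (S P Q x *ᵥ v) - u ⬝ᵥ (S P Q z *ᵥ v)) +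
        ε * (u ⬝ᵥ (T' ε *ᵥ v) - u ⬝ᵥ (T ε *ᵥ v)) := by
      refine continuous_const.add (continuous_id.mul (Continuous.sub ?_ ?_))
      · exact Continuous.dotProduct continuous_const (hT'.matrix_mulVec continuous_const)
      · exact Continuous.dotProduct continuous_const (hT.matrix_mulVec continuous_const)
    have hpos : ∀ᶠ ε in nhds (0 : ℝ), 0 < (u ⬝ᵥ (S P Q x *ᵥ v) - u ⬝ᵥ (S P Q z *ᵥ v)) +
        ε * (u ⬝ᵥ (T' ε *ᵥ v) - u ⬝ᵥ (T ε *ᵥ v)) := by
      apply (hcont.tendsto 0).eventually
      apply lt_mem_nhds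
      simp only [zero_mul, add_zero]
      linarith
    filter_upwards [nhdsWithin_le_nhds hpos, self_mem_nhdsWithin] with ε h2 h3
    have h3' : 0 < ε := h3
    have e1 : (fam u v P Q ε).rho x - (fam u v P Q ε).rho z =
        ε * ((u ⬝ᵥ (S P Q x *ᵥ v) - u ⬝ᵥ (S P Q z *ᵥ v)) + ε * (u ⬝ᵥ (T' ε *ᵥ v) - u ⬝ᵥ (T ε *ᵥ v))) := by
      simp only [GPFA2.rho, fam]
      rw [h1, h1', hl]
      simp only [Matrix.add_mulVec, dotProduct_add, Matrix.smul_mulVec, dotProduct_smul, smul_eq_mul]
      ring
    have := mul_pos h3' h2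
    linarith
  have hall := (Filter.eventually_all_finite hfin).2 hev
  obtain ⟨ε, hε⟩ := hall.exists
  exact ⟨fam u v P Q ε, fun z hl hne => hε z ⟨hl, hne⟩⟩

end Pool.Agent.H87.GP
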