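import Pool.Agent.H87.GP.Basic

/-!
# Rotation codings, exponential sign patterns, three runs
-/

set_option autoImplicit false

namespace Pool.Agent.H87.GP

open Matrix

/-- rotation -/
noncomputable def rot (a : ℝ) : Matrix (Fin 2) (Fin 2) ℝ := !![Real.cos a, -Real.sin a; Real.sin a, Real.cos a]

theorem rot_mul (a b : ℝ) : rot a * rot b = rot (a + b) := by
  ext i j
  fin_cases i <;> fin_cases j <;>
    simp [rot, Matrix.mul_apply, Fin.sum_univ_two, Real.cos_add, Real.sin_add] <;> ring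

theorem rot_pow (a : ℝ) (k : ℕ) : rot a ^ k = rot (k * a) := by
  induction k with
  | zero =>
    ext i j
    fin_cases i <;> fin_cases j <;> simp [rot]
  | succ k ih =>
    rw [pow_succ, ih, rot_mul]
    congr 1
    push_cast
    ring

theorem rot_entry (A B a b c d : ℝ) :
    (rot a * (A • rot b + B • (!![1, 0; 0, -1] * rot c)) * rot d : Matrix (Fin 2) (Fin 2) ℝ) 0 0 =
      A * Real.cos (a + b + d) + B * Real.cos (c + d - a) := by
  have e1 : a + b + d = a + (b + d) := by ring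
  have e2 : c + d - a = c + (d - a) := by ring
  rw [e1, e2]
  simp [rot, Matrix.mul_apply, Fin.sum_univ_two, Real.cos_add, Real.sin_add,
    Real.cos_sub, Real.sin_sub]
  ring

theorem rotation (x : List Bool) (A B θ φ : ℝ)
    (h : ∀ k (hk : k < x.length), if x[k] then 0 < A + B * Real.cos (θ * k + φ) else A + B * Real.cos (θ * k + φ) < 0) :
    ∃ M : GPFA2, M.Wit x := by
  obtain ⟨α, hα⟩ : ∃ α : ℝ, θ = 2 * α := ⟨θ / 2, by ring⟩
  apply criterion ![1, 0] ![1, 0] (rot α)
    (A • rot (-(((x.length : ℝ) - 1) * α)) + B • (!![1, 0; 0, -1] * rot (-φ - ((x.length : ℝ) - 1) * α))) x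
  intro k hk
  have e : ![1, 0] ⬝ᵥ ((rot α ^ k * (A • rot (-(((x.length : ℝ) - 1) * α)) +
      B • (!![1, 0; 0, -1] * rot (-φ - ((x.length : ℝ) - 1) * α))) * rot α ^ (x.length - 1 - k)) *ᵥ ![1, 0]) =
      A + B * Real.cos (θ * k + φ) := by
    have e0 : ∀ X : Matrix (Fin 2) (Fin 2) ℝ, ![1, 0] ⬝ᵥ (X *ᵥ ![1, 0]) = X 0 0 := by
      intro X
      simp [dotProduct, Matrix.mulVec, Fin.sum_univ_two]
    have hc : ((x.length - 1 - k : ℕ) : ℝ) = (x.length : ℝ) - 1 - k := by
      have : x.length - 1 - k + k + 1 = x.length := by omega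
      have h2 : ((x.length - 1 - k : ℕ) : ℝ) + k + 1 = x.length := by exact_mod_cast this
      linarith
    rw [e0, rot_pow, rot_pow, rot_entry, hc]
    have f1 : (k : ℝ) * α + -(((x.length : ℝ) - 1) * α) + ((x.length : ℝ) - 1 - k) * α = 0 := by ring
    have f2 : -φ - ((x.length : ℝ) - 1) * α + ((x.length : ℝ) - 1 - k) * α - k * α = -(θ * k + φ) := by
      rw [hα]
      ring
    rw [f1, f2, Real.cos_zero, Real.cos_neg, mul_one]
  rw [e]
  exact h k hk

theorem exponential (x : List Bool) (A B C r : ℝ)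
    (h : ∀ k (hk : k < x.length), if x[k] then 0 < A + B * r ^ k + C * r ^ (x.length - 1 - k)
      else A + B * r ^ k + C * r ^ (x.length - 1 - k) < 0) : ∃ M : GPFA2, M.Wit x := by
  apply criterion ![1, 1] ![1, 1] !![r, 0; 0, 1] !![0, B; C, A] x
  intro k hk
  have hp : ∀ m : ℕ, (!![r, 0; 0, 1] : Matrix (Fin 2) (Fin 2) ℝ) ^ m = !![r ^ m, 0; 0, 1] := by
    intro m
    induction m with
    | zero =>
      ext i j
      fin_cases i <;> fin_cases j <;> simp
    | succ m ih =>
      rw [pow_succ, ih]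
      ext i j
      fin_cases i <;> fin_cases j <;> simp [Matrix.mul_apply, Fin.sum_univ_two, pow_succ]
  have e : ![1, 1] ⬝ᵥ ((!![r, 0; 0, 1] ^ k * !![0, B; C, A] * !![r, 0; 0, 1] ^ (x.length - 1 - k)) *ᵥ ![1, 1]) =
      A + B * r ^ k + C * r ^ (x.length - 1 - k) := by
    rw [hp, hp]
    simp [dotProduct, Matrix.mulVec, Matrix.mul_apply, Fin.sum_univ_two]
    ring
  rw [e]
  exact h k hk

theorem three_runs (a b c : ℕ) (i : Bool) :
    ∃ M : GPFA2, M.Wit (List.replicate a i ++ List.replicate b (!i) ++ List.replicate c i) := by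
  obtain ⟨s, hs, hs2⟩ : ∃ s : ℝ, (s = 1 ∨ s = -1) ∧ s = if i then -1 else 1 := by
    cases i
    · exact ⟨1, Or.inl rfl, by simp⟩
    · exact ⟨-1, Or.inr rfl, by simp⟩
  obtain ⟨X, hX⟩ : ∃ X : ℝ, X = 4 ^ a / 2 := ⟨_, rfl⟩
  obtain ⟨Y, hY⟩ : ∃ Y : ℝ, Y = 4 ^ (a + b) / 2 := ⟨_, rfl⟩
  have hX0 : 0 < X := by rw [hX]; positivity
  have hY0 : 0 < Y := by rw [hY]; positivity
  obtain ⟨n, hn⟩ : ∃ n : ℕ, n = a + b + c := ⟨_, rfl⟩
  have hlen : (List.replicate a i ++ List.replicate b (!i) ++ List.replicate c i).length = n := by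
    rw [hn]
    simp [add_assoc]
  apply exponential _ s (-s / (X + Y)) (-s * (X * Y) / ((X + Y) * 4 ^ (n - 1))) 4
  intro k hk'
  have hk : k < n := by
    rw [← hlen]
    exact hk'
  have hk4 : (0 : ℝ) < 4 ^ k := by positivity
  have hval : s + -s / (X + Y) * 4 ^ k + -s * (X * Y) / ((X + Y) * 4 ^ (n - 1)) *
      4 ^ ((List.replicate a i ++ List.replicate b (!i) ++ List.replicate c i).length - 1 - k) =
      s * ((4 ^ k - X) * (Y - 4 ^ k) / ((X + Y) * 4 ^ k)) := by
    rw [hlen]
    have e : (4 : ℝ) ^ (n - 1) = 4 ^ (n - 1 - k) * 4 ^ k := by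
      rw [← pow_add]
      congr 1
      omega
    rw [e]
    have h1 : (4 : ℝ) ^ (n - 1 - k) ≠ 0 := by positivity
    have h2 : (4 : ℝ) ^ k ≠ 0 := by positivity
    have h3 : X + Y ≠ 0 := by positivity
    field_simp
    ring
  rw [hval]
  have hlt : ∀ {m : ℕ}, k < m → (4 : ℝ) ^ k < 4 ^ m / 2 := by
    intro m hm
    have : (4 : ℝ) ^ (k + 1) ≤ 4 ^ m := pow_le_pow_right₀ (by norm_num) hm
    rw [pow_succ] at this
    linarith
  have hgt : ∀ {m : ℕ}, m ≤ k → (4 : ℝ) ^ m / 2 < 4 ^ k := by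
    intro m hm
    have : (4 : ℝ) ^ m ≤ 4 ^ k := pow_le_pow_right₀ (by norm_num) hm
    have h0 : (0 : ℝ) < 4 ^ m := by positivity
    linarith
  have hden : 0 < (X + Y) * 4 ^ k := by positivity
  by_cases h1 : k < a
  · have hx : (List.replicate a i ++ List.replicate b (!i) ++ List.replicate c i)[k]'hk' = i := by
      rw [List.getElem_append_left (by simp; omega), List.getElem_append_left (by simpa using h1)]
      simp
    rw [hx]
    have g1 : (4 : ℝ) ^ k - X < 0 := by rw [hX]; linarith [hlt h1]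
    have g2 : 0 < Y - (4 : ℝ) ^ k := by rw [hY]; linarith [hlt (show k < a + b by omega)]
    have g3 : (4 ^ k - X) * (Y - 4 ^ k) / ((X + Y) * 4 ^ k) < 0 := div_neg_of_neg_of_pos (mul_neg_of_neg_of_pos g1 g2) hden
    cases i
    · simp at hs2 ⊢
      rw [hs2]
      linarith
    · simp at hs2 ⊢
      rw [hs2]
      linarith
  · by_cases h2 : k < a + b
    · have hx : (List.replicate a i ++ List.replicate b (!i) ++ List.replicate c i)[k]'hk' = !i := by
        rw [List.getElem_append_left (by simpa using h2), List.getElem_append_right (by simpa using h1)]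
        simp
      rw [hx]
      have g1 : 0 < (4 : ℝ) ^ k - X := by rw [hX]; linarith [hgt (show a ≤ k by omega)]
      have g2 : 0 < Y - (4 : ℝ) ^ k := by rw [hY]; linarith [hlt h2]
      have g3 : 0 < (4 ^ k - X) * (Y - 4 ^ k) / ((X + Y) * 4 ^ k) := div_pos (mul_pos g1 g2) hden
      cases i
      · simp at hs2 ⊢
        rw [hs2]
        linarith
      · simp at hs2 ⊢
        rw [hs2]
        linarith
    · have hx : (List.replicate a i ++ List.replicate b (!i) ++ List.replicate c i)[k]'hk' = i := by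
        rw [List.getElem_append_right (by simpa using h2)]
        simp
      rw [hx]
      have g1 : 0 < (4 : ℝ) ^ k - X := by rw [hX]; linarith [hgt (show a ≤ k by omega)]
      have g2 : Y - (4 : ℝ) ^ k < 0 := by rw [hY]; linarith [hgt (show a + b ≤ k by omega)]
      have g3 : (4 ^ k - X) * (Y - 4 ^ k) / ((X + Y) * 4 ^ k) < 0 := div_neg_of_neg_of_pos (mul_neg_of_pos_of_neg g1 g2) hden
      cases i
      · simp at hs2 ⊢
        rw [hs2]
        linarith
      · simp at hs2 ⊢
        rw [hs2]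
        linarith

end Pool.Agent.H87.GP
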