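import Mathlib

/-!
# Three-state probabilistic automata
-/

set_option autoImplicit false

namespace Pool.Agent.H87.GP3

open Matrix

/-- generalized probabilistic automata with `k` states over the alphabet `Fin a` -/
structure GPFA (k a : ℕ) where
  p : Fin k → ℝ
  P : Fin a → Matrix (Fin k) (Fin k) ℝ
  e : Fin k → ℝ

/-- the value of a word: row vector times the product of the matrices times column vector -/
noncomputable def GPFA.rho {k a : ℕ} (M : GPFA k a) (w : List (Fin a)) : ℝ := M.p ⬝ᵥ ((w.map M.P).prod *ᵥ M.e)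

/-- the gap of the word is positive: every other word of the same length has a smaller value -/
def GPFA.Wit {k a : ℕ} (M : GPFA k a) (x : List (Fin a)) : Prop :=
  ∀ z : List (Fin a), z.length = x.length → z ≠ x → M.rho z < M.rho x

/-- probabilistic automata: a probability vector, stochastic matrices, a set of accepting states -/
def GPFA.IsPFA {k a : ℕ} (M : GPFA k a) : Prop :=
  ((∀ i, 0 ≤ M.p i) ∧ ∑ i, M.p i = 1) ∧ (∀ b, (∀ i j, 0 ≤ M.P b i j) ∧ ∀ i, ∑ j, M.P b i j = 1) ∧
    ∀ i, M.e i = 0 ∨ M.e i = 1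

/-- two independent trials with success probability `t`: the distribution of the number of successes -/
noncomputable def s (t : ℝ) : Fin 3 → ℝ := ![(1 - t) ^ 2, 2 * t * (1 - t), t ^ 2]

/-- failure becomes success with probability `p`, success stays success with probability `q` -/
noncomputable def B (p q : ℝ) : Matrix (Fin 3) (Fin 3) ℝ :=
  !![(1 - p) ^ 2, 2 * p * (1 - p), p ^ 2;
     (1 - p) * (1 - q), p * (1 - q) + q * (1 - p), p * q;
     (1 - q) ^ 2, 2 * q * (1 - q), q ^ 2]

theorem s_B (t p q : ℝ) : s t ᵥ* B p q = s (p + (q - p) * t) := by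
  ext i
  fin_cases i <;> simp [s, B, Matrix.vecMul, dotProduct, Fin.sum_univ_three] <;> ring

theorem s_nonneg {t : ℝ} (h0 : 0 ≤ t) (h1 : t ≤ 1) : (∀ i, 0 ≤ s t i) ∧ ∑ i, s t i = 1 := by
  have h2 : 0 ≤ 1 - t := by linarith
  constructor
  · intro i
    fin_cases i
    · show 0 ≤ (1 - t) ^ 2
      positivity
    · show 0 ≤ 2 * t * (1 - t)
      positivity
    · show 0 ≤ t ^ 2
      positivity
  · simp [s, Fin.sum_univ_three]
    ring

theorem B_stoch {p q : ℝ} (hp0 : 0 ≤ p) (hp1 : p ≤ 1) (hq0 : 0 ≤ q) (hq1 : q ≤ 1) :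
    (∀ i j, 0 ≤ B p q i j) ∧ ∀ i, ∑ j, B p q i j = 1 := by
  have hp : 0 ≤ 1 - p := by linarith
  have hq : 0 ≤ 1 - q := by linarith
  constructor
  · intro i j
    fin_cases i <;> fin_cases j <;> simp [B] <;> positivity
  · intro i
    fin_cases i <;> simp [B, Fin.sum_univ_three] <;> ring

/-- the number with the digits of the word -/
def E {a : ℕ} : List (Fin a) → ℕ
  | [] => 0
  | b :: w => b + a * E w

theorem E_lt {a : ℕ} (w : List (Fin a)) : E w + 1 ≤ a ^ w.length := by
  induction w with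
  | nil => simp [E]
  | cons b w ih =>
    have hb := b.isLt
    rw [E, List.length_cons, pow_succ]
    calc (b : ℕ) + a * E w + 1 ≤ a + a * E w := by omega
      _ = (E w + 1) * a := by ring
      _ ≤ a ^ w.length * a := Nat.mul_le_mul_right _ ih

theorem E_inj {a : ℕ} : ∀ (w z : List (Fin a)), w.length = z.length → E w = E z → w = z := by
  intro w
  induction w with
  | nil =>
    intro z hl _
    exact (List.length_eq_zero_iff.1 hl.symm).symm
  | cons b w ih =>
    intro z hl he
    cases z with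
    | nil => simp at hl
    | cons d z =>
      rw [E, E] at he
      have hb := b.isLt
      have hd := d.isLt
      have h1 : (b : ℕ) = d := by
        have := congrArg (fun m => m % a) he
        simpa [Nat.add_mul_mod_self_left, Nat.mod_eq_of_lt hb, Nat.mod_eq_of_lt hd] using this
      have ha : 0 < a := by omega
      have h2 : E w = E z := by
        have : a * E w = a * E z := by omega
        exact Nat.eq_of_mul_eq_mul_left ha this
      rw [Fin.ext h1, ih z (by simpa using hl) h2]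

/-- the automaton with the centre `c` -/
noncomputable def aut (a : ℕ) (c : ℝ) : GPFA 3 a :=
  ⟨s (1 / 2 - c / 2), fun b => B (1 / 2 + ((c - 1 + (b : ℕ)) / a - c) / 2) (1 / 2 + ((c + 1 + (b : ℕ)) / a - c) / 2),
    ![0, 1, 0]⟩

theorem run (a : ℕ) (c v : ℝ) (w : List (Fin a)) :
    s (1 / 2 + (v - c) / 2) ᵥ* (w.map (aut a c).P).prod = s (1 / 2 + ((v + E w) / (a : ℝ) ^ w.length - c) / 2) := by
  induction w generalizing v with
  | nil => simp [E]
  | cons b w ih =>
    have ha : (a : ℝ) ≠ 0 := by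
      have := b.isLt
      have : a ≠ 0 := by omega
      exact_mod_cast this
    rw [List.map_cons, List.prod_cons, ← Matrix.vecMul_vecMul]
    have h1 : s (1 / 2 + (v - c) / 2) ᵥ* (aut a c).P b = s (1 / 2 + ((v + (b : ℕ)) / a - c) / 2) := by
      show s (1 / 2 + (v - c) / 2) ᵥ* B _ _ = _
      rw [s_B]
      congr 1
      field_simp
      ring
    rw [h1, ih ((v + (b : ℕ)) / a)]
    congr 2
    rw [E, List.length_cons, pow_succ]
    push_cast
    field_simp
    ring

theorem value (a : ℕ) (c : ℝ) (w : List (Fin a)) :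
    (aut a c).rho w = 1 / 2 - (E w / (a : ℝ) ^ w.length - c) ^ 2 / 2 := by
  have h := run a c 0 w
  have h0 : (1 : ℝ) / 2 + (0 - c) / 2 = 1 / 2 - c / 2 := by ring
  rw [h0, zero_add] at h
  rw [GPFA.rho, Matrix.dotProduct_mulVec]
  show s (1 / 2 - c / 2) ᵥ* (w.map (aut a c).P).prod ⬝ᵥ ![0, 1, 0] = _
  rw [h]
  simp [s, dotProduct, Fin.sum_univ_three]
  ring

theorem three (a : ℕ) (x : List (Fin a)) : ∃ M : GPFA 3 a, M.IsPFA ∧ M.Wit x ∧
    ∀ z : List (Fin a), z.length = x.length → z ≠ x → M.rho z + 1 / (2 * (a : ℝ) ^ (2 * x.length)) ≤ M.rho x := by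
  obtain ⟨c, hc⟩ : ∃ c : ℝ, c = E x / (a : ℝ) ^ x.length := ⟨_, rfl⟩
  have hpow : ((E x : ℕ) : ℝ) + 1 ≤ (a : ℝ) ^ x.length := by exact_mod_cast E_lt x
  have hE0 : (0 : ℝ) ≤ (E x : ℝ) := Nat.cast_nonneg _
  have hpos : (0 : ℝ) < (a : ℝ) ^ x.length := by linarith
  have hc0 : 0 ≤ c := by rw [hc]; positivity
  have hc1 : c ≤ 1 := by
    rw [hc, div_le_one hpos]
    linarith
  have key : ∀ z : List (Fin a), z.length = x.length → z ≠ x →
      (aut a c).rho z + 1 / (2 * (a : ℝ) ^ (2 * x.length)) ≤ (aut a c).rho x := by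
    intro z hl hne
    rw [value, value, hl, ← hc]
    have hne' : ((E z : ℕ) : ℤ) - E x ≠ 0 := fun h => hne (E_inj z x hl (by omega))
    have h1 : (1 : ℤ) ≤ (((E z : ℕ) : ℤ) - E x) ^ 2 := by
      have := Int.one_le_abs hne'
      nlinarith [sq_abs (((E z : ℕ) : ℤ) - E x)]
    have h2 : (1 : ℝ) ≤ ((E z : ℝ) - E x) ^ 2 := by exact_mod_cast h1
    have hd : ((E z : ℝ) / (a : ℝ) ^ x.length - c) ^ 2 = ((E z : ℝ) - E x) ^ 2 / (a : ℝ) ^ (2 * x.length) := by
      rw [hc, ← sub_div, div_pow, ← pow_mul, mul_comm 2]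
    have hp2 : (0 : ℝ) < (a : ℝ) ^ (2 * x.length) := by
      rw [mul_comm, pow_mul]
      positivity
    have h3 : 1 / (a : ℝ) ^ (2 * x.length) ≤ ((E z : ℝ) - E x) ^ 2 / (a : ℝ) ^ (2 * x.length) :=
      div_le_div_of_nonneg_right h2 hp2.le
    have h4 : 1 / (2 * (a : ℝ) ^ (2 * x.length)) = 1 / (a : ℝ) ^ (2 * x.length) / 2 := by
      field_simp
    rw [hd, h4, sub_self]
    linarith
  refine ⟨aut a c, ⟨s_nonneg (by linarith) (by linarith), fun b => ?_, fun i => ?_⟩, fun z hl hne => ?_, key⟩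
  · have hb := b.isLt
    have hb1 : ((b : ℕ) : ℝ) + 1 ≤ a := by exact_mod_cast hb
    have hb0 : (0 : ℝ) ≤ ((b : ℕ) : ℝ) := Nat.cast_nonneg _
    have ha : (1 : ℝ) ≤ a := by linarith
    have ha0 : (0 : ℝ) < a := by linarith
    have h1 : c - 1 ≤ (c - 1 + (b : ℕ)) / a := by
      rw [le_div_iff₀ ha0]
      nlinarith
    have h2 : (c - 1 + (b : ℕ)) / a ≤ (c + 1 + (b : ℕ)) / a := by
      apply div_le_div_of_nonneg_right _ ha0.le
      linarith
    have h3 : (c + 1 + (b : ℕ)) / a ≤ c + 1 := by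
      rw [div_le_iff₀ ha0]
      nlinarith
    exact B_stoch (by linarith) (by linarith) (by linarith) (by linarith)
  · fin_cases i <;> simp [aut]
  · have h := key z hl hne
    have hp2 : (0 : ℝ) < (a : ℝ) ^ (2 * x.length) := by
      rw [mul_comm, pow_mul]
      positivity
    have h5 : 0 < 1 / (2 * (a : ℝ) ^ (2 * x.length)) := by positivity
    linarith

end Pool.Agent.H87.GP3
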